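import Pool.Agent.helper62.MS.SpecE

/-!
# Row `ms:LOW` of project MS (`MP_07c750_an`)
-/

set_option autoImplicit false

open scoped Topology
open MeasureTheory Filter Set

namespace Pool.Agent.MS

open Pool.Agent.EN (Hn)
open Pool.Agent.LL (Sys cyl)

theorem LOW_wm {X : Type} [MeasurableSpace X] {T : X → X} {p : ℕ} {P : X → Fin p} (hT : Measurable T)
    (hP : Measurable P) (N : ℕ) : Measurable (fun x => (fun i : Fin N => P (T^[i] x))) := by
  refine measurable_pi_lambda _ fun i => ?_
  exact hP.comp (hT.iterate i)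

/-- the cylinder measure is a measurable function -/
theorem LOW_cm {X : Type} [MeasurableSpace X] (μ : Measure X) {T : X → X} {p : ℕ} {P : X → Fin p}
    (hT : Measurable T) (hP : Measurable P) (N : ℕ) : Measurable (cyl μ T P N) := by
  have h : cyl μ T P N = (fun w : Fin N → Fin p => μ.real {y | ∀ i : Fin N, P (T^[i] y) = w i}) ∘
      (fun x => (fun i : Fin N => P (T^[i] x))) := rfl
  rw [h]
  exact (measurable_of_finite _).comp (LOW_wm hT hP N)

/-- `Hn` is the integral of `-log cyl` -/
theorem LOW_int {X : Type} [MeasurableSpace X] (μ : Measure X) [IsProbabilityMeasure μ] {T : X → X}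
    {p : ℕ} {P : X → Fin p} (hT : Measurable T) (hP : Measurable P) (N : ℕ) :
    Hn μ T P N = ∫ x, -Real.log (cyl μ T P N x) ∂μ := by
  have hw := LOW_wm hT hP N
  have h1 : (∫ x, -Real.log (cyl μ T P N x) ∂μ) =
      ∫ w, -Real.log (μ.real {x | ∀ i : Fin N, P (T^[i] x) = w i})
        ∂(μ.map (fun x => (fun i : Fin N => P (T^[i] x)))) := by
    rw [integral_map hw.aemeasurable (measurable_of_finite _).aestronglyMeasurable]
    rfl
  have : IsProbabilityMeasure (μ.map (fun x => (fun i : Fin N => P (T^[i] x)))) :=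
    Measure.isProbabilityMeasure_map hw.aemeasurable
  rw [h1, integral_fintype Integrable.of_finite]
  unfold Hn
  refine Finset.sum_congr rfl fun w _ => ?_
  have h2 : (μ.map (fun x => (fun i : Fin N => P (T^[i] x)))).real {w} =
      μ.real {x | ∀ i : Fin N, P (T^[i] x) = w i} := by
    rw [measureReal_def, Measure.map_apply hw (measurableSet_singleton w), measureReal_def]
    congr 2
    ext x
    simp only [mem_preimage, mem_singleton_iff, mem_setOf_eq]
    exact funext_iff
  rw [h2, smul_eq_mul, Real.negMulLog]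
  ring

/-- almost every point has a cylinder of positive measure -/
theorem LOW_pos {X : Type} [MeasurableSpace X] (μ : Measure X) [IsProbabilityMeasure μ] {T : X → X}
    {p : ℕ} {P : X → Fin p} (N : ℕ) : ∀ᵐ x ∂μ, 0 < cyl μ T P N x := by
  have h1 : {x | ¬ 0 < cyl μ T P N x} ⊆ ⋃ w : {w : Fin N → Fin p // μ.real {x | ∀ i : Fin N, P (T^[i] x) = w i} = 0},
      {x | ∀ i : Fin N, P (T^[i] x) = w.1 i} := by
    intro x hx
    simp only [mem_setOf_eq, not_lt] at hx
    have h2 : cyl μ T P N x = 0 := le_antisymm hx measureReal_nonneg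
    exact mem_iUnion.2 ⟨⟨fun i => P (T^[i] x), h2⟩, fun i => rfl⟩
  rw [ae_iff]
  refine measure_mono_null h1 (measure_iUnion_null fun w => ?_)
  have h3 := w.2
  rw [measureReal_def, ENNReal.toReal_eq_zero_iff] at h3
  rcases h3 with h3 | h3
  · exact h3
  · exact absurd h3 (measure_ne_top _ _)

theorem LOW_proof : LOW_stmt := by
  intro X _ μ T S p P J L ε Y hμ hs hP hJ hJL hY hTY hμY hε hG δ hδ
  have hμY' : μ Y ≠ 0 := hμY.ne'
  have hpr : IsProbabilityMeasure (ProbabilityTheory.cond μ Y) :=
    ProbabilityTheory.cond_isProbabilityMeasure hμY'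
  set ν := ProbabilityTheory.cond μ Y with hν
  have hT : Measurable T := hs.mp.measurable
  have hS : Measurable S := hs.ms.measurable
  have hνac : ν ≪ μ := ProbabilityTheory.cond_absolutelyContinuous
  -- `S` preserves `ν`
  have hSY : S ⁻¹' Y = Y := by
    ext x
    rw [mem_preimage, ← hTY (S x), hs.ts x]
  have hSν : MeasurePreserving S ν ν := by
    refine ⟨hS, ?_⟩
    ext A hA
    rw [Measure.map_apply hS hA, hν, ProbabilityTheory.cond_apply hY, ProbabilityTheory.cond_apply hY]
    congr 1
    have h1 : Y ∩ S ⁻¹' A = S ⁻¹' (Y ∩ A) := by rw [preimage_inter, hSY]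
    rw [h1, hs.ms.measure_preimage (hY.inter hA).nullMeasurableSet]
  have hL : 0 ≤ L := by
    obtain ⟨x⟩ := nonempty_of_isProbabilityMeasure μ
    exact (hJL x).1.trans (hJL x).2
  set y := μ.real Y with hy
  have hy0 : 0 < y := by
    rw [hy, measureReal_def]
    exact ENNReal.toReal_pos hμY' (measure_ne_top _ _)
  have hy1 : y ≤ 1 := measureReal_le_one
  -- the bad sets
  set B : ℕ → Set X := fun n => {x | ¬ cyl μ T P (2 * n + 1) (S^[n] x) ≤
    Real.exp (-(((2 * n + 1 : ℕ) : ℝ) * (J x - ε)))} with hB
  have hBm : ∀ n, MeasurableSet (B n) := by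
    intro n
    have h0 : MeasurableSet {x | cyl μ T P (2 * n + 1) (S^[n] x) ≤
        Real.exp (-(((2 * n + 1 : ℕ) : ℝ) * (J x - ε)))} := by
      refine measurableSet_le ?_ ?_
      · exact (LOW_cm μ hT hP _).comp (hS.iterate n)
      · exact Real.measurable_exp.comp ((measurable_const.mul (hJ.sub measurable_const)).neg)
    exact h0.compl
  have hBt : Tendsto (fun n => ν (B n)) atTop (𝓝 (ν ∅)) := by
    refine tendsto_measure_of_ae_tendsto_indicator_of_isFiniteMeasure atTop MeasurableSet.empty hBm ?_
    filter_upwards [hνac.ae_le hG] with x hx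
    filter_upwards [hx] with n hn
    have h0 : x ∉ B n := fun h => h hn
    exact ⟨fun h => absurd h h0, fun h => absurd h (notMem_empty x)⟩
  have hBr : Tendsto (fun n => ν.real (B n)) atTop (𝓝 0) := by
    have h1 := (ENNReal.tendsto_toReal (measure_ne_top ν ∅)).comp hBt
    simpa [measureReal_def, Function.comp_def] using h1
  -- cylinders
  have hcyl : ∀ N x, cyl ν T P N x ≤ cyl μ T P N x / y := by
    intro N x
    unfold cyl
    rw [hν, measureReal_def, ProbabilityTheory.cond_apply hY, ENNReal.toReal_mul, ENNReal.toReal_inv,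
      div_eq_inv_mul]
    refine mul_le_mul_of_nonneg_left ?_ (inv_nonneg.2 hy0.le)
    exact measureReal_mono inter_subset_right (measure_ne_top _ _)
  -- the main bound
  have hmain : ∀ n : ℕ, ((2 * n + 1 : ℕ) : ℝ) * (∫ x, J x ∂ν - ε) + Real.log y -
      ((2 * n + 1 : ℕ) : ℝ) * L * ν.real (B n) ≤ Hn ν T P (2 * n + 1) := by
    intro n
    set N : ℕ := 2 * n + 1 with hN
    have hJi : Integrable J ν := by
      refine Integrable.of_bound hJ.aestronglyMeasurable L (ae_of_all _ fun x => ?_)
      rw [Real.norm_eq_abs, abs_of_nonneg (hJL x).1]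
      exact (hJL x).2
    have hfm : Measurable (fun x => -Real.log (cyl ν T P N x)) :=
      (Real.measurable_log.comp (LOW_cm ν hT hP N)).neg
    have h1 : Hn ν T P N = ∫ x, -Real.log (cyl ν T P N (S^[n] x)) ∂ν := by
      rw [LOW_int ν hT hP N]
      have h2 := integral_map (μ := ν) (hS.iterate n).aemeasurable (f := fun x => -Real.log (cyl ν T P N x))
        hfm.aestronglyMeasurable
      rw [(hSν.iterate n).map_eq] at h2
      exact h2
    have hint : Integrable (fun x => -Real.log (cyl ν T P N (S^[n] x))) ν := by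
      have hw : Measurable (fun x => (fun i : Fin N => P (T^[i] (S^[n] x)))) :=
        (LOW_wm hT hP N).comp (hS.iterate n)
      have : IsProbabilityMeasure (ν.map (fun x => (fun i : Fin N => P (T^[i] (S^[n] x))))) :=
        Measure.isProbabilityMeasure_map hw.aemeasurable
      have h3 := (Integrable.of_finite (μ := ν.map (fun x => (fun i : Fin N => P (T^[i] (S^[n] x)))))
        (f := fun w : Fin N → Fin p => -Real.log (ν.real {y | ∀ i : Fin N, P (T^[i] y) = w i}))).comp_measurable hw
      exact h3
    have hind : Integrable ((B n).indicator (fun _ => (N : ℝ) * L)) ν :=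
      (integrable_const _).indicator (hBm n)
    have hlow : Integrable (fun x => ((N : ℝ) * (J x - ε) + Real.log y) -
        (B n).indicator (fun _ => (N : ℝ) * L) x) ν :=
      (((hJi.sub (integrable_const _)).const_mul _).add (integrable_const _)).sub hind
    have h4 : ∫ x, (((N : ℝ) * (J x - ε) + Real.log y) - (B n).indicator (fun _ => (N : ℝ) * L) x) ∂ν =
        (N : ℝ) * (∫ x, J x ∂ν - ε) + Real.log y - (N : ℝ) * L * ν.real (B n) := by
      have i1 : Integrable (fun x => J x - ε) ν := hJi.sub (integrable_const _)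
      have i2 : Integrable (fun x => (N : ℝ) * (J x - ε)) ν := i1.const_mul _
      have i3 : Integrable (fun x => (N : ℝ) * (J x - ε) + Real.log y) ν := i2.add (integrable_const _)
      rw [integral_sub i3 hind, integral_add i2 (integrable_const _),
        integral_const_mul, integral_sub hJi (integrable_const _), integral_indicator_const _ (hBm n)]
      simp only [integral_const, probReal_univ, one_smul, smul_eq_mul]
      ring
    rw [← h4, h1]
    refine integral_mono_ae hlow hint ?_
    have hpos : ∀ᵐ x ∂ν, 0 < cyl ν T P N (S^[n] x) :=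
      (hSν.iterate n).quasiMeasurePreserving.ae (LOW_pos ν N)
    filter_upwards [hpos] with x hx
    have hc1 : cyl ν T P N (S^[n] x) ≤ 1 := measureReal_le_one
    by_cases hxB : x ∈ B n
    · have h5 : 0 ≤ -Real.log (cyl ν T P N (S^[n] x)) := by
        have := Real.log_nonpos hx.le hc1
        linarith
      rw [indicator_of_mem hxB]
      have h6 : Real.log y ≤ 0 := Real.log_nonpos hy0.le hy1
      have h7 : (N : ℝ) * (J x - ε) ≤ (N : ℝ) * L :=
        mul_le_mul_of_nonneg_left (by linarith [(hJL x).2]) (Nat.cast_nonneg _)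
      linarith
    · rw [indicator_of_notMem hxB, sub_zero]
      have h8 : cyl μ T P N (S^[n] x) ≤ Real.exp (-((N : ℝ) * (J x - ε))) := by
        by_contra h
        exact hxB h
      have h9 : cyl ν T P N (S^[n] x) ≤ Real.exp (-((N : ℝ) * (J x - ε))) / y :=
        (hcyl N _).trans (div_le_div_of_nonneg_right h8 hy0.le)
      have h10 := Real.log_le_log hx h9
      rw [Real.log_div (Real.exp_pos _).ne' hy0.ne', Real.log_exp] at h10
      linarith
  -- the limit
  have hlim : Tendsto (fun n : ℕ => L * ν.real (B n) + (-Real.log y) / ((2 * n + 1 : ℕ) : ℝ)) atTop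
      (𝓝 (L * 0 + 0)) := by
    refine (hBr.const_mul L).add ?_
    refine Tendsto.div_atTop tendsto_const_nhds ?_
    refine tendsto_natCast_atTop_atTop.comp ?_
    refine tendsto_atTop_mono (fun n => ?_) tendsto_id
    show n ≤ 2 * n + 1
    omega
  rw [mul_zero, add_zero] at hlim
  filter_upwards [hlim.eventually (gt_mem_nhds hδ)] with n hn
  refine le_trans ?_ (hmain n)
  have hN0 : (0 : ℝ) < ((2 * n + 1 : ℕ) : ℝ) := by positivity
  have h11 : ((2 * n + 1 : ℕ) : ℝ) * (L * ν.real (B n) + (-Real.log y) / ((2 * n + 1 : ℕ) : ℝ)) ≤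
      ((2 * n + 1 : ℕ) : ℝ) * δ := mul_le_mul_of_nonneg_left hn.le hN0.le
  rw [mul_add, mul_div_cancel₀ _ hN0.ne'] at h11
  linarith

end Pool.Agent.MS
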