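import Pool.Agent.helper57.MS.Spec

/-!
# MP_b48e27_co, row TH2: closure of the good families under common refinement
-/

set_option autoImplicit false

open Finset Pool.Agent.RRank Pool.Agent.helper26.IM

namespace Pool.Agent.helper57.MS

theorem TH2_bound {ι : Type*} [Finite ι] (f : ι → ℕ) : ∃ B : ℕ, ∀ i, f i ≤ B := by
  obtain ⟨B, hB⟩ := (Set.finite_range f).bddAbove
  exact ⟨B, fun i => hB ⟨i, rfl⟩⟩

theorem TH2 (hTH2R : TH2R_stmt) (hSRK : SRK_stmt) : TH2_stmt := by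
  refine ⟨?_, ?_⟩
  · have h1 : ∀ (d r : ℕ), ∃ B : ℕ, 0 < d → ∀ (R R' : Set (IndexPartition d)) (K : Type) [Field K]
        (Q : Fin d → Type) (T : ((α : Fin d) → Q α) → K), rank R T ≤ r → rank R' T ≤ r →
        rank (meet R R') T ≤ B := by
      intro d r
      by_cases hd : 0 < d
      swap
      · exact ⟨0, fun h => absurd h hd⟩
      choose N₀ hN₀ using fun (x : Set (IndexPartition d) × Set (IndexPartition d) ×
        Fin (r + 1) × Fin (r + 1)) => hTH2R d x.2.2.1 x.2.2.2 hd x.1 x.2.1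
      obtain ⟨B, hB⟩ := TH2_bound N₀
      refine ⟨B, fun _ => ?_⟩
      intro R R' K _ Q T hR hR'
      have e1 : rank R T < ((r + 1 : ℕ) : ℕ∞) :=
        lt_of_le_of_lt hR (by exact_mod_cast Nat.lt_succ_self r)
      have e2 : rank R' T < ((r + 1 : ℕ) : ℕ∞) :=
        lt_of_le_of_lt hR' (by exact_mod_cast Nat.lt_succ_self r)
      obtain ⟨r₁, hr₁, hs₁⟩ := exists_sumOf_of_rank_lt e1
      obtain ⟨r₂, hr₂, hs₂⟩ := exists_sumOf_of_rank_lt e2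
      obtain ⟨N, hN, hs⟩ := hN₀ (R, R', ⟨r₁, hr₁⟩, ⟨r₂, hr₂⟩) K Q T hs₁ hs₂
      refine (rank_le_of_sumOf hs).trans ?_
      have := hN.trans (hB (R, R', ⟨r₁, hr₁⟩, ⟨r₂, hr₂⟩))
      exact_mod_cast this
    choose F hF using h1
    exact ⟨F, fun d r hd R R' K _ Q T h2 h3 => hF d r hd R R' K Q T h2 h3⟩
  · intro d hd 𝓚 R R' hQ hQ' l
    obtain ⟨G₁, hG₁⟩ := hQ l
    obtain ⟨G₂, hG₂⟩ := hQ' l
    choose N₀ hN₀ using fun (x : Fin G₁ × Fin G₂) => hTH2R d x.1 x.2 hd R R'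
    obtain ⟨B, hB⟩ := TH2_bound N₀
    refine ⟨B + 1, ?_⟩
    intro K iK h𝓚 Q T hT
    by_cases c1 : (G₁ : ℕ∞) ≤ rank R T
    · obtain ⟨X, hX, hX2⟩ := hG₁ K iK h𝓚 Q T c1
      refine ⟨X, hX, hX2.trans ?_⟩
      refine (hSRK K d _ R (meet R R') ?_ _).2
      rintro P' ⟨P₁, h1, P₂, h2, rfl⟩
      exact ⟨P₁, h1, inf_le_left⟩
    by_cases c2 : (G₂ : ℕ∞) ≤ rank R' T
    · obtain ⟨X, hX, hX2⟩ := hG₂ K iK h𝓚 Q T c2
      refine ⟨X, hX, hX2.trans ?_⟩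
      refine (hSRK K d _ R' (meet R R') ?_ _).2
      rintro P' ⟨P₁, h1, P₂, h2, rfl⟩
      exact ⟨P₂, h2, inf_le_right⟩
    obtain ⟨r₁, hr₁, hs₁⟩ := exists_sumOf_of_rank_lt (not_le.1 c1)
    obtain ⟨r₂, hr₂, hs₂⟩ := exists_sumOf_of_rank_lt (not_le.1 c2)
    obtain ⟨N, hN, hs⟩ := hN₀ (⟨r₁, hr₁⟩, ⟨r₂, hr₂⟩) K Q T hs₁ hs₂
    exact absurd hs (not_sumOf_of_le_rank hT
      (lt_of_le_of_lt (hN.trans (hB (⟨r₁, hr₁⟩, ⟨r₂, hr₂⟩))) (Nat.lt_succ_self B)))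

end Pool.Agent.helper57.MS
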