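import Pool.Agent.helper57.MS.Spec3

/-!
# MP_b48e27_co, row GEN: Q1 for the class of good families
-/

set_option autoImplicit false

open Finset Pool.Agent.RRank Pool.Agent.helper26.IM

namespace Pool.Agent.helper57.MS

theorem GEN_two {d : ℕ} (R : Set (IndexPartition d)) (h1 : R.Nonempty) (h2 : R.ncard ≤ 2) :
    ∃ P₁ P₂ : IndexPartition d, R = {P₁, P₂} := by
  obtain ⟨P₁, hP₁⟩ := h1
  by_cases h : ∀ P ∈ R, P = P₁
  · refine ⟨P₁, P₁, ?_⟩
    ext P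
    constructor
    · intro hP
      exact Or.inl (h P hP)
    · rintro (hP | hP)
      · rw [hP]
        exact hP₁
      · rw [hP]
        exact hP₁
  · push Not at h
    obtain ⟨P₂, hP₂, hne⟩ := h
    refine ⟨P₁, P₂, ?_⟩
    have h3 : ({P₁, P₂} : Set (IndexPartition d)) ⊆ R := by
      rintro P (hP | hP)
      · rw [hP]
        exact hP₁
      · rw [hP]
        exact hP₂
    refine (Set.eq_of_subset_of_ncard_le h3 ?_ (Set.toFinite R)).symm
    rw [Set.ncard_pair (Ne.symm hne)]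
    exact h2

theorem GEN (hTH4 : TH4_stmt) (hTRI : TRI_stmt) (hTH3 : TH3_stmt) (hTH1 : TH1_stmt)
    (hQMT : QMT_stmt) (hBLK : BLK_stmt) (hQDS : QDS_stmt) : GEN_stmt := by
  intro 𝓚 d R hR
  induction hR with
  | two R h1 h2 =>
    intro hd
    obtain ⟨P₁, P₂, rfl⟩ := GEN_two R h1 h2
    exact hTH4 _ hd 𝓚 P₁ P₂
  | three R h1 =>
    intro _
    exact hTRI 𝓚 R h1
  | ssep R h1 =>
    intro hd
    exact hTH3 _ hd 𝓚 R h1
  | @sep d' R h1 h2 =>
    intro hd l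
    obtain ⟨G, hG⟩ := hTH1
    refine ⟨G d' l, ?_⟩
    intro K iK h𝓚 Q _ T hT
    exact (hG _ l hd R K (h1 l K iK h𝓚) Q T).2 h2 hT
  | meet R R' _ _ ih1 ih2 =>
    intro hd
    exact hQMT _ hd 𝓚 R R' (ih1 hd) (ih2 hd)
  | pull φ R' _ ih =>
    intro hd
    exact hBLK _ _ hd φ 𝓚 R' (ih (lt_of_le_of_lt (Nat.zero_le _) (φ ⟨0, hd⟩).isLt))
  | down R R' h1 h2 _ ih =>
    intro hd
    exact hQDS _ 𝓚 R R' h1 h2 (ih hd)

end Pool.Agent.helper57.MS
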